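import Pool.Agent.H44.KR.Targets

set_option autoImplicit false
set_option linter.unusedVariables false

namespace Pool.Agent.H40.KR

open Pool.Agent.H68.BP Pool.Agent.H58.SF Pool.Agent.H53.NR Pool.Agent.H53.GM Pool.Agent.H44.KR
open Pool.Agent.H57.LCI (LocalCompletions Pre Realizes)
open Pool.Agent.H57.AR (tp ty)
open Pool.Agent.H57.EQ (Cx)
open Function
open Classical

section

variable {V F : Type} {ρ : Sig} {L : ℕ} {X : F → Type}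

/-- the disjoint union of graded structures -/
noncomputable def un (C : (Φ : F) → GS ρ L (X Φ)) : GS ρ L (Σ Φ, X Φ) :=
  ⟨fun p => (C p.1).pl p.2, fun g => ∃ (Φ : F) (g' : Finset (X Φ)), (C Φ).gd g' ∧
    g = g'.image (Sigma.mk Φ), fun l z => ∃ (Φ : F) (z' : Fin (ρ.ar l) → X Φ),
      z = (fun i => ⟨Φ, z' i⟩) ∧ (C Φ).st l z'⟩

theorem un_st (C : (Φ : F) → GS ρ L (X Φ)) (har : ∀ l, 1 ≤ ρ.ar l) (l : Fin ρ.m) (Φ : F)
    (z' : Fin (ρ.ar l) → X Φ) :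
    (un C).st l (fun i => ⟨Φ, z' i⟩) ↔ (C Φ).st l z' := by
  constructor
  · rintro ⟨Φ₁, z₁, h1, h2⟩
    have h3 := congrFun h1 ⟨0, har l⟩
    have h4 : Φ = Φ₁ := congrArg Sigma.fst h3
    subst h4
    have h5 : z' = z₁ := by
      funext i
      exact eq_of_heq (Sigma.mk.inj (congrFun h1 i)).2
    rw [h5]
    exact h2
  · intro h
    exact ⟨Φ, z', rfl, h⟩

/-- the ranks on the disjoint union -/
def urk (e : F → ℕ) (N : ℕ) (rk : (Φ : F) → X Φ → ℕ) (p : Σ Φ, X Φ) : ℕ := e p.1 + N * rk p.1 p.2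

theorem kd_un (C : (Φ : F) → GS ρ L (X Φ)) (har : ∀ l, 1 ≤ ρ.ar l) (e : F → ℕ) (N : ℕ)
    (hN : 0 < N) (rk : (Φ : F) → X Φ → ℕ) (Φ : F) {J : Type} (a : J → X Φ)
    (a' : J → Σ Φ, X Φ) (ha : a' = fun j => ⟨Φ, a j⟩) :
    H44.KR.kd (un C).pl (un C).st (urk e N rk) a' =
      H44.KR.kd (C Φ).pl (C Φ).st (rk Φ) a := by
  subst ha
  unfold H44.KR.kd
  refine Prod.ext rfl (Prod.ext ?_ (Prod.ext ?_ ?_))
  · funext i j
    refine propext ⟨fun h => ?_, fun h => ?_⟩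
    · exact eq_of_heq (Sigma.mk.inj h).2
    · show (⟨Φ, a i⟩ : Σ Φ, X Φ) = ⟨Φ, a j⟩
      rw [h]
  · funext i j
    refine propext (and_congr Iff.rfl ?_)
    show e Φ + N * rk Φ (a i) < e Φ + N * rk Φ (a j) ↔ _
    rw [Nat.add_lt_add_iff_left, Nat.mul_lt_mul_left hN]
  · funext l z
    exact propext (and_congr Iff.rfl (un_st C har l Φ fun i => a (z i)))

theorem exists_lift {Φ : F} {g' : Finset (X Φ)} {n : ℕ} {z : Fin n → Σ Φ, X Φ}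
    (h : ∀ i, z i ∈ g'.image (Sigma.mk Φ)) :
    ∃ z' : Fin n → X Φ, (z = fun i => ⟨Φ, z' i⟩) ∧ ∀ i, z' i ∈ g' := by
  have h1 : ∀ i, ∃ y ∈ g', (⟨Φ, y⟩ : Σ Φ, X Φ) = z i := fun i => Finset.mem_image.1 (h i)
  choose z' hz' hz2 using h1
  exact ⟨z', funext fun i => (hz2 i).symm, hz'⟩

end

theorem pf_UNI : T_UNI := by
  intro V σ ρ 𝔸 𝔹 L hB hval
  by_contra hcon
  push Not at hcon
  choose X hXf hXn C rk n hG hS hR hV using hcon
  have har := hB.ar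
  have hfinF : Finite (Kd ρ L JJ → Yc ρ) := by
    have h1 : Finite (Str ρ JJ) := by
      unfold Str
      infer_instance
    have h2 : Finite (Kd ρ L JJ) := inferInstance
    have h3 : Finite (Yc ρ) := inferInstance
    infer_instance
  obtain ⟨N, hN⟩ : ∃ N : ℕ, N = Nat.card (Kd ρ L JJ → Yc ρ) := ⟨_, rfl⟩
  obtain ⟨e, he, heN⟩ : ∃ e : (Kd ρ L JJ → Yc ρ) → ℕ, Injective e ∧ ∀ Φ, e Φ < N := by
    refine ⟨fun Φ => (Finite.equivFin (Kd ρ L JJ → Yc ρ) Φ : ℕ), ?_, ?_⟩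
    · intro a b hab
      exact (Finite.equivFin _).injective (Fin.ext hab)
    · intro Φ
      rw [hN]
      exact (Finite.equivFin (Kd ρ L JJ → Yc ρ) Φ).2
  have hF0 : Nonempty (Kd ρ L JJ → Yc ρ) := ⟨fun _ => (True, fun _ => True, fun _ => True)⟩
  have hN0 : 0 < N := by
    rw [hN]
    exact Nat.card_pos
  obtain ⟨n', hn'⟩ : ∃ n' : ℕ, ∀ Φ, n Φ ≤ n' := by
    obtain ⟨n', h⟩ := (Set.finite_range n).bddAbove
    exact ⟨n', fun Φ => h ⟨Φ, rfl⟩⟩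
  have hXX : Finite (Σ Φ, X Φ) := inferInstance
  have hXX0 : Nonempty (Σ Φ, X Φ) := by
    obtain ⟨Φ⟩ := hF0
    obtain ⟨x⟩ := hXn Φ
    exact ⟨⟨Φ, x⟩⟩
  have hgood : Good 𝔹 (un C) := by
    refine ⟨?_, ?_, ?_⟩
    · rintro g g₂ ⟨Φ, g', hg', rfl⟩ hsub
      refine ⟨Φ, g'.filter fun x => (⟨Φ, x⟩ : Σ Φ, X Φ) ∈ g₂,
        (hG Φ).dn g' _ hg' (Finset.filter_subset _ _), ?_⟩
      ext p
      rw [Finset.mem_image]
      constructor
      · intro hp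
        obtain ⟨x, hx, rfl⟩ := Finset.mem_image.1 (hsub hp)
        exact ⟨x, Finset.mem_filter.2 ⟨hx, hp⟩, rfl⟩
      · rintro ⟨x, hx, rfl⟩
        exact (Finset.mem_filter.1 hx).2
    · rintro g ⟨Φ, g', hg', rfl⟩ p hp q hq
      obtain ⟨x, hx, rfl⟩ := Finset.mem_image.1 hp
      obtain ⟨y, hy, rfl⟩ := Finset.mem_image.1 hq
      exact (hG Φ).adj g' hg' x hx y hy
    · intro Z
      have h1 := fun Φ => (hG Φ).rz Z
      choose f hf using h1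
      refine ⟨fun p => f p.1 p.2, ?_⟩
      rintro g ⟨Φ, g', hg', rfl⟩
      obtain ⟨h2, h3⟩ := hf Φ g' hg'
      refine ⟨?_, ?_⟩
      · rintro p ⟨hp, hpZ⟩ q ⟨hq, hqZ⟩ hpq
        obtain ⟨x, hx, rfl⟩ := Finset.mem_image.1 hp
        obtain ⟨y, hy, rfl⟩ := Finset.mem_image.1 hq
        have h4 : x = y := h2 x ⟨hx, hpZ⟩ y ⟨hy, hqZ⟩ hpq
        rw [h4]
      · intro l z hz
        obtain ⟨z', rfl, hz'⟩ := exists_lift fun i => (hz i).1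
        have h4 := h3 l z' fun i => ⟨hz' i, (hz i).2⟩
        exact h4.trans (un_st C har l Φ z').symm
  have hSg : (un C).Sg := by
    rintro ⟨Φ, x⟩
    refine ⟨Φ, {x}, hS Φ x, ?_⟩
    rw [Finset.image_singleton]
  have hinj : Injective (urk e N rk) := by
    rintro ⟨Φ, x⟩ ⟨Ψ, y⟩ h
    have h1 : e Φ + N * rk Φ x = e Ψ + N * rk Ψ y := h
    have h2 : e Φ = e Ψ := by
      have h3 := congrArg (fun t => t % N) h1
      simp only [Nat.add_mul_mod_self_left] at h3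
      rwa [Nat.mod_eq_of_lt (heN Φ), Nat.mod_eq_of_lt (heN Ψ)] at h3
    obtain rfl := he h2
    have h4 : rk Φ x = rk Φ y := Nat.eq_of_mul_eq_mul_left hN0 (Nat.add_left_cancel h1)
    rw [hR Φ h4]
  obtain ⟨Φ₀, hΦ⟩ := hval (Σ Φ, X Φ) (un C) (urk e N rk) n' hgood hSg hinj
  refine hV Φ₀ ⟨?_, ?_⟩
  · obtain ⟨u, hu, hout⟩ := hΦ.out
    refine ⟨fun c x => u c ⟨Φ₀, x⟩, ⟨fun x c c' h => hu.top ⟨Φ₀, x⟩ c c' h, ?_⟩, ?_⟩
    · intro g hg r c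
      obtain ⟨h2, h3⟩ := hu.rz (g.image (Sigma.mk Φ₀)) ⟨Φ₀, g, hg, rfl⟩ r c
      refine ⟨?_, ?_⟩
      · rintro x ⟨hx, hxA⟩ y ⟨hy, hyA⟩ hxy
        have h4 := h2 ⟨Φ₀, x⟩ ⟨Finset.mem_image_of_mem _ hx, hxA⟩ ⟨Φ₀, y⟩
          ⟨Finset.mem_image_of_mem _ hy, hyA⟩ hxy
        exact eq_of_heq (Sigma.mk.inj h4).2
      · intro l z hz
        have h4 := h3 l (fun i => ⟨Φ₀, z i⟩) fun i =>
          ⟨Finset.mem_image_of_mem _ (hz i).1, (hz i).2⟩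
        exact h4.trans (un_st C har l Φ₀ z)
    · intro W _ b hW
      obtain ⟨ψ, hψ, hcol⟩ := hout W (fun w c => ⟨Φ₀, b w c⟩) (hW.trans (hn' Φ₀))
      refine ⟨ψ, hψ, ?_⟩
      intro w w' ht
      have hel : Sum.elim (fun c => (⟨Φ₀, b w c⟩ : Σ Φ, X Φ)) (fun c => ⟨Φ₀, b w' c⟩) =
          fun j => ⟨Φ₀, Sum.elim (b w) (b w') j⟩ := by
        funext j
        cases j <;> rfl
      have h4 : (un C).tup (Sum.elim (fun c => (⟨Φ₀, b w c⟩ : Σ Φ, X Φ))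
          (fun c => ⟨Φ₀, b w' c⟩)) := by
        obtain ⟨g, hg, hj⟩ := ht
        refine ⟨g.image (Sigma.mk Φ₀), ⟨Φ₀, g, hg, rfl⟩, ?_⟩
        intro j
        rw [hel]
        exact Finset.mem_image_of_mem _ (hj j)
      rw [hcol w w' h4, kd_un C har e N hN0 rk Φ₀ (Sum.elim (b w) (b w')) _ hel]
  · intro r x hg hpl
    have h1 := hΦ.ex r (fun i d => ⟨Φ₀, x i d⟩) (by
      obtain ⟨g, hg, hx⟩ := hg
      exact ⟨g.image (Sigma.mk Φ₀), ⟨Φ₀, g, hg, rfl⟩, fun i d =>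
        Finset.mem_image_of_mem _ (hx i d)⟩) hpl
    have hel : ∀ r : Fin 3, Sum.elim (fun c => (⟨Φ₀, x 0 (lr r c)⟩ : Σ Φ, X Φ))
        (fun c => ⟨Φ₀, x 1 (lr r c)⟩) =
        fun j => ⟨Φ₀, Sum.elim (fun c => x 0 (lr r c)) (fun c => x 1 (lr r c)) j⟩ := by
      intro r
      funext j
      cases j <;> rfl
    rw [kd_un C har e N hN0 rk Φ₀ _ _ (hel r), kd_un C har e N hN0 rk Φ₀ _ _ (hel 0)] at h1
    exact h1

end Pool.Agent.H40.KR
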